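import Mathlib

/-!
# MP_197ffd_nt: the members of S with two prescribed rows
-/

namespace Pool.Agent.Results.MP_197ffd_nt.RowFibres

open Matrix

/-- The set `S` of the problem. -/
def S : Set (Matrix (Fin 3) (Fin 3) ℤ) :=
  {A | (∀ i j, 2 ≤ |A i j|) ∧ A.det = 1 ∧ (A.map (fun x => x ^ 2)).det = 1}

/-- The product of the three `2 × 2` minors of the first two rows. -/
def K (A : Matrix (Fin 3) (Fin 3) ℤ) : ℤ :=
  (A 0 0 * A 1 1 - A 0 1 * A 1 0) * (A 0 1 * A 1 2 - A 0 2 * A 1 1) *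
    (A 0 2 * A 1 0 - A 0 0 * A 1 2)

/-- Determinant with rows the squares of the first row, the squares of the second row and
the products of the entries of the third row with those of row `k`. -/
def G (k : Fin 3) (A : Matrix (Fin 3) (Fin 3) ℤ) : ℤ :=
  (Matrix.of ![fun j => A 0 j ^ 2, fun j => A 1 j ^ 2, fun j => A 2 j * A k j]).det

/-- The members of `S` with the same first two rows as `A`. -/
def fibre (A : Matrix (Fin 3) (Fin 3) ℤ) : Set (Matrix (Fin 3) (Fin 3) ℤ) :=
  {B | B ∈ S ∧ B 0 = A 0 ∧ B 1 = A 1}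

theorem det3 (B : Matrix (Fin 3) (Fin 3) ℤ) : B.det =
    B 0 0 * B 1 1 * B 2 2 - B 0 0 * B 1 2 * B 2 1 - B 0 1 * B 1 0 * B 2 2
      + B 0 1 * B 1 2 * B 2 0 + B 0 2 * B 1 0 * B 2 1 - B 0 2 * B 1 1 * B 2 0 :=
  Matrix.det_fin_three B

theorem G_eq (k : Fin 3) (A : Matrix (Fin 3) (Fin 3) ℤ) : G k A =
    A 0 0 ^ 2 * A 1 1 ^ 2 * (A 2 2 * A k 2) - A 0 0 ^ 2 * A 1 2 ^ 2 * (A 2 1 * A k 1)
      - A 0 1 ^ 2 * A 1 0 ^ 2 * (A 2 2 * A k 2)
      + A 0 1 ^ 2 * A 1 2 ^ 2 * (A 2 0 * A k 0) + A 0 2 ^ 2 * A 1 0 ^ 2 * (A 2 1 * A k 1)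
      - A 0 2 ^ 2 * A 1 1 ^ 2 * (A 2 0 * A k 0) := by
  unfold G
  rw [det3]
  simp [Matrix.of_apply]

/-- Replace the third row of `A` by `A 2 + s A 0 + t A 1`. -/
def move (A : Matrix (Fin 3) (Fin 3) ℤ) (s t : ℤ) : Matrix (Fin 3) (Fin 3) ℤ :=
  Matrix.of ![fun j => A 0 j, fun j => A 1 j, fun j => A 2 j + s * A 0 j + t * A 1 j]

theorem move_det (A : Matrix (Fin 3) (Fin 3) ℤ) (s t : ℤ) : (move A s t).det = A.det := by
  rw [det3, det3]
  simp only [move, Matrix.of_apply, Matrix.cons_val_zero, Matrix.cons_val_one,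
    Matrix.cons_val]
  ring

theorem move_sq_det (A : Matrix (Fin 3) (Fin 3) ℤ) (s t : ℤ) :
    ((move A s t).map (fun x => x ^ 2)).det =
      (A.map (fun x => x ^ 2)).det + 2 * (s * G 0 A + t * G 1 A + s * t * K A) := by
  rw [det3, det3, G_eq, G_eq]
  simp only [move, K, Matrix.map_apply, Matrix.of_apply, Matrix.cons_val_zero,
    Matrix.cons_val_one, Matrix.cons_val]
  ring


theorem move_rows (A : Matrix (Fin 3) (Fin 3) ℤ) (s t : ℤ) :
    move A s t 0 = A 0 ∧ move A s t 1 = A 1 ∧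
      ∀ j, move A s t 2 j = A 2 j + s * A 0 j + t * A 1 j := by
  refine ⟨?_, ?_, ?_⟩
  · funext j; simp [move]
  · funext j; simp [move]
  · intro j; simp [move]

/-- The first two rows are admissible and the determinant is one. -/
def Pre (A : Matrix (Fin 3) (Fin 3) ℤ) : Prop :=
  (∀ j, 2 ≤ |A 0 j|) ∧ (∀ j, 2 ≤ |A 1 j|) ∧ A.det = 1

/-- The determinant of the entrywise square. -/
def D (A : Matrix (Fin 3) (Fin 3) ℤ) : ℤ := (A.map (fun x => x ^ 2)).det

/-- Every member of the fibre is a move of `A`. -/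
theorem mem_fibre_iff (A : Matrix (Fin 3) (Fin 3) ℤ) (hA : Pre A)
    (B : Matrix (Fin 3) (Fin 3) ℤ) :
    B ∈ fibre A ↔ ∃ s t : ℤ, D A + 2 * (s * G 0 A + t * G 1 A + s * t * K A) = 1 ∧
      B = move A s t ∧ ∀ j, 2 ≤ |A 2 j + s * A 0 j + t * A 1 j| := by
  obtain ⟨hA0, hA1, hA2⟩ := hA
  constructor
  · rintro ⟨⟨hB1, hB2, hB3⟩, h0, h1⟩
    have e0 : ∀ j, B 0 j = A 0 j := fun j => congrFun h0 j
    have e1 : ∀ j, B 1 j = A 1 j := fun j => congrFun h1 j
    have dA := hA2
    have dB := hB2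
    rw [det3] at dA dB
    simp only [e0, e1] at dB
    obtain ⟨s, hs⟩ : ∃ s : ℤ, s = (B 2 0 - A 2 0) * (A 1 1 * A 2 2 - A 1 2 * A 2 1)
        - (B 2 1 - A 2 1) * (A 1 0 * A 2 2 - A 1 2 * A 2 0)
        + (B 2 2 - A 2 2) * (A 1 0 * A 2 1 - A 1 1 * A 2 0) := ⟨_, rfl⟩
    obtain ⟨t, ht⟩ : ∃ t : ℤ, t = -((B 2 0 - A 2 0) * (A 0 1 * A 2 2 - A 0 2 * A 2 1)
        - (B 2 1 - A 2 1) * (A 0 0 * A 2 2 - A 0 2 * A 2 0)
        + (B 2 2 - A 2 2) * (A 0 0 * A 2 1 - A 0 1 * A 2 0)) := ⟨_, rfl⟩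
    have r0 : B 2 0 = A 2 0 + s * A 0 0 + t * A 1 0 := by
      rw [hs, ht]; linear_combination (-(B 2 0)) * dA + (A 2 0) * dB
    have r1 : B 2 1 = A 2 1 + s * A 0 1 + t * A 1 1 := by
      rw [hs, ht]; linear_combination (-(B 2 1)) * dA + (A 2 1) * dB
    have r2 : B 2 2 = A 2 2 + s * A 0 2 + t * A 1 2 := by
      rw [hs, ht]; linear_combination (-(B 2 2)) * dA + (A 2 2) * dB
    have hr : ∀ j, B 2 j = A 2 j + s * A 0 j + t * A 1 j := by
      intro j; fin_cases j
      · exact r0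
      · exact r1
      · exact r2
    have hBm : B = move A s t := by
      obtain ⟨m0, m1, m2⟩ := move_rows A s t
      funext i j
      fin_cases i
      · show B 0 j = move A s t 0 j
        rw [m0, h0]
      · show B 1 j = move A s t 1 j
        rw [m1, h1]
      · show B 2 j = move A s t 2 j
        rw [m2, hr]
    refine ⟨s, t, ?_, hBm, ?_⟩
    · have := move_sq_det A s t
      rw [← hBm, hB3] at this
      unfold D
      linarith
    · intro j
      rw [← hr j]
      exact hB1 2 j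
  · rintro ⟨s, t, hst, rfl, hadm⟩
    obtain ⟨m0, m1, m2⟩ := move_rows A s t
    refine ⟨⟨?_, ?_, ?_⟩, m0, m1⟩
    · intro i j
      fin_cases i
      · show 2 ≤ |move A s t 0 j|
        rw [m0]; exact hA0 j
      · show 2 ≤ |move A s t 1 j|
        rw [m1]; exact hA1 j
      · show 2 ≤ |move A s t 2 j|
        rw [m2]; exact hadm j
    · rw [move_det, hA2]
    · rw [move_sq_det]; exact hst

/-- Divisibility in the fibre. -/
theorem two_mul_eq {k g h s t d : ℤ} (e : d + 2 * (s * g + t * h + s * t * k) = 1) :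
    2 * ((k * s + h) * (k * t + g)) = 2 * g * h + k * (1 - d) := by
  linear_combination k * e

theorem of_two_mul_eq {k g h s t d : ℤ} (hk : k ≠ 0)
    (e : 2 * ((k * s + h) * (k * t + g)) = 2 * g * h + k * (1 - d)) :
    d + 2 * (s * g + t * h + s * t * k) = 1 := by
  have h1 : k * (d + 2 * (s * g + t * h + s * t * k) - 1) = 0 := by
    linear_combination e
  rcases mul_eq_zero.1 h1 with h2 | h2
  · exact absurd h2 hk
  · linarith

theorem abs_le_of_dvd {k h s d : ℤ} (hk : k ≠ 0)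
    (hd : k * s + h ∣ d) (hd0 : d ≠ 0) : |s| ≤ |d| + |h| := by
  have h1 : |k * s + h| ≤ |d| := by
    have := Int.natAbs_le_of_dvd_ne_zero hd hd0
    rw [Int.abs_eq_natAbs, Int.abs_eq_natAbs]
    exact_mod_cast this
  have h2 : |k * s| ≤ |k * s + h| + |h| := by
    have : k * s = (k * s + h) + (-h) := by ring
    calc |k * s| = |(k * s + h) + (-h)| := by rw [← this]
      _ ≤ |k * s + h| + |-h| := abs_add_le _ _
      _ = |k * s + h| + |h| := by rw [abs_neg]
  have h3 : |s| ≤ |k * s| := by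
    rw [abs_mul]
    have : 1 ≤ |k| := Int.one_le_abs hk
    nlinarith [abs_nonneg s]
  linarith

/-- Twice the integer whose factorisations describe the fibre. -/
def E (A : Matrix (Fin 3) (Fin 3) ℤ) : ℤ := 2 * G 0 A * G 1 A + K A * (1 - D A)

theorem finite_of_ne (A : Matrix (Fin 3) (Fin 3) ℤ) (hA : Pre A) (hK : K A ≠ 0)
    (hE : E A ≠ 0) : (fibre A).Finite := by
  set M : ℤ := |E A| + |G 1 A| + |G 0 A| with hM
  refine ((((Set.finite_Icc (-M) M).prod (Set.finite_Icc (-M) M))).image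
    (fun p : ℤ × ℤ => move A p.1 p.2)).subset ?_
  intro B hB
  obtain ⟨s, t, hst, rfl, -⟩ := (mem_fibre_iff A hA B).1 hB
  have hp := two_mul_eq hst
  have a0 := abs_nonneg (G 0 A)
  have a1 := abs_nonneg (G 1 A)
  have hs : |s| ≤ M := by
    have : K A * s + G 1 A ∣ E A := by
      refine ⟨2 * (K A * t + G 0 A), ?_⟩
      unfold E; rw [← hp]; ring
    have := abs_le_of_dvd hK this hE
    rw [hM]; linarith
  have ht : |t| ≤ M := by
    have : K A * t + G 0 A ∣ E A := by
      refine ⟨2 * (K A * s + G 1 A), ?_⟩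
      unfold E; rw [← hp]; ring
    have := abs_le_of_dvd hK this hE
    rw [hM]; linarith
  exact ⟨(s, t), ⟨⟨(abs_le.1 hs).1, (abs_le.1 hs).2⟩, ⟨(abs_le.1 ht).1, (abs_le.1 ht).2⟩⟩, rfl⟩

/-- The entries of the third row leave `{-1, 0, 1}` along a line with admissible start or
non-zero direction. -/
theorem adm_of_large (a v N : ℤ) (n : ℕ) (hN : |a| + 2 ≤ N) (h : v = 0 → 2 ≤ |a|) :
    2 ≤ |a + (N + n) * v| := by
  by_cases hj : v = 0
  · rw [hj, mul_zero, add_zero]
    exact h hj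
  · have h1 : 1 ≤ |v| := Int.one_le_abs hj
    have hn : (0 : ℤ) ≤ n := Int.natCast_nonneg n
    have ha := abs_nonneg a
    have h2 : N ≤ |(N + n) * v| := by
      rw [abs_mul]
      have h5 : N + n ≤ |N + (n : ℤ)| := le_abs_self _
      have h6 : 0 ≤ N := by linarith
      nlinarith [abs_nonneg (N + (n : ℤ))]
    have h3 : |(N + n) * v| ≤ |a + (N + n) * v| + |a| := by
      have : (N + n) * v = (a + (N + n) * v) + (-a) := by ring
      calc |(N + n) * v| = |(a + (N + n) * v) + (-a)| := by rw [← this]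
        _ ≤ |a + (N + n) * v| + |-a| := abs_add_le _ _
        _ = _ := by rw [abs_neg]
    linarith

/-- A whole line of solutions makes the fibre infinite. -/
theorem infinite_of_line (A : Matrix (Fin 3) (Fin 3) ℤ) (hA : Pre A) (s0 t0 s t : ℤ)
    (hne : s ≠ 0 ∨ t ≠ 0)
    (hadm : ∀ j, s * A 0 j + t * A 1 j = 0 → 2 ≤ |A 2 j + s0 * A 0 j + t0 * A 1 j|)
    (h : ∀ n : ℤ, D A + 2 * ((s0 + n * s) * G 0 A + (t0 + n * t) * G 1 A
      + (s0 + n * s) * (t0 + n * t) * K A) = 1) :
    (fibre A).Infinite := by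
  have hv : ∃ j, s * A 0 j + t * A 1 j ≠ 0 := by
    by_contra hcon
    push Not at hcon
    have c0 := hcon 0
    have c1 := hcon 1
    have c2 := hcon 2
    have d := hA.2.2
    rw [det3] at d
    rcases hne with hs | ht
    · apply hs
      linear_combination (-s) * d + (A 1 1 * A 2 2 - A 1 2 * A 2 1) * c0
        - (A 1 0 * A 2 2 - A 1 2 * A 2 0) * c1 + (A 1 0 * A 2 1 - A 1 1 * A 2 0) * c2
    · apply ht
      linear_combination (-t) * d - (A 0 1 * A 2 2 - A 0 2 * A 2 1) * c0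
        + (A 0 0 * A 2 2 - A 0 2 * A 2 0) * c1 - (A 0 0 * A 2 1 - A 0 1 * A 2 0) * c2
  obtain ⟨j0, hj0⟩ := hv
  set f : Fin 3 → ℤ := fun j => A 2 j + s0 * A 0 j + t0 * A 1 j with hf
  set N : ℤ := |f 0| + |f 1| + |f 2| + 2 with hN
  have hNj : ∀ j, |f j| + 2 ≤ N := by
    intro j
    have a0 := abs_nonneg (f 0)
    have a1 := abs_nonneg (f 1)
    have a2 := abs_nonneg (f 2)
    fin_cases j
    · show |f 0| + 2 ≤ N
      linarith
    · show |f 1| + 2 ≤ N
      linarith
    · show |f 2| + 2 ≤ N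
      linarith
  refine Set.infinite_of_injective_forall_mem
    (f := fun n : ℕ => move A (s0 + (N + n) * s) (t0 + (N + n) * t)) ?_ ?_
  · intro m n hmn
    have h2 := congrFun (congrFun hmn 2) j0
    simp only [(move_rows A _ _).2.2] at h2
    have h3 : ((m : ℤ) - n) * (s * A 0 j0 + t * A 1 j0) = 0 := by
      linear_combination h2
    rcases mul_eq_zero.1 h3 with h4 | h4
    · have : (m : ℤ) = n := by linarith
      exact_mod_cast this
    · exact absurd h4 hj0
  · intro n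
    rw [mem_fibre_iff A hA]
    refine ⟨s0 + (N + n) * s, t0 + (N + n) * t, h _, rfl, ?_⟩
    intro j
    have e : A 2 j + (s0 + (N + n) * s) * A 0 j + (t0 + (N + n) * t) * A 1 j
        = f j + (N + n) * (s * A 0 j + t * A 1 j) := by rw [hf]; ring
    rw [e]
    exact adm_of_large (f j) _ N n (hNj j) (hadm j)

/-- If no `2 × 2` minor of the two rows vanishes. -/
theorem infinite_iff (A : Matrix (Fin 3) (Fin 3) ℤ) (hA : Pre A) (hK : K A ≠ 0) :
    (fibre A).Infinite ↔ E A = 0 ∧ (K A ∣ G 0 A ∨ K A ∣ G 1 A) := by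
  constructor
  · intro hinf
    by_cases hE : E A = 0
    · refine ⟨hE, ?_⟩
      obtain ⟨B, hB⟩ := hinf.nonempty
      obtain ⟨s, t, hst, -, -⟩ := (mem_fibre_iff A hA B).1 hB
      have hp := two_mul_eq hst
      unfold E at hE
      rw [hE] at hp
      have hq : (K A * s + G 1 A) * (K A * t + G 0 A) = 0 := by linarith
      rcases mul_eq_zero.1 hq with h1 | h1
      · right
        exact ⟨-s, by linarith⟩
      · left
        exact ⟨-t, by linarith⟩
    · exact absurd (finite_of_ne A hA hK hE) hinf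
  · rintro ⟨hE, h0 | h1⟩
    · obtain ⟨c, hc⟩ := h0
      refine infinite_of_line A hA 0 (-c) 1 0 (Or.inl one_ne_zero) ?_ ?_
      · intro j hj
        exfalso
        have := hA.1 j
        have hz : A 0 j = 0 := by linarith
        rw [hz, abs_zero] at this
        omega
      · intro n
        apply of_two_mul_eq hK
        unfold E at hE
        rw [hE, hc]; ring
    · obtain ⟨c, hc⟩ := h1
      refine infinite_of_line A hA (-c) 0 0 1 (Or.inr one_ne_zero) ?_ ?_
      · intro j hj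
        exfalso
        have := hA.2.1 j
        have hz : A 1 j = 0 := by linarith
        rw [hz, abs_zero] at this
        omega
      · intro n
        apply of_two_mul_eq hK
        unfold E at hE
        rw [hE, hc]; ring

/-- If some `2 × 2` minor of the two rows vanishes. -/
theorem infinite_iff_nonempty (A : Matrix (Fin 3) (Fin 3) ℤ) (hA : Pre A) (hK : K A = 0) :
    (fibre A).Infinite ↔ (fibre A).Nonempty := by
  refine ⟨fun h => h.nonempty, ?_⟩
  rintro ⟨B, hB⟩
  obtain ⟨s, t, hst, rfl, hadm⟩ := (mem_fibre_iff A hA B).1 hB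
  by_cases h0 : G 0 A = 0
  · refine infinite_of_line A hA s t 1 0 (Or.inl one_ne_zero) (fun j _ => hadm j) ?_
    intro n
    rw [hK, h0] at hst ⊢
    linear_combination hst
  · refine infinite_of_line A hA s t (-(G 1 A)) (G 0 A) (Or.inr h0) (fun j _ => hadm j) ?_
    intro n
    rw [hK] at hst ⊢
    linear_combination hst

/-- **The members of `S` with two prescribed rows.** Let `A` be an integer matrix of determinant
one whose first two rows are admissible (its third row is arbitrary). The members of `S` with the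
same first two rows are the matrices with third row `r + s a + t b` with integers `s`, `t`
satisfying `D + 2 (s G₀ + t G₁ + s t K) = 1` and with the new third row admissible. If `K ≠ 0`,
the equation is `2 (K s + G₁)(K t + G₀) = E`, and there are infinitely many such members if and
only if `E = 0` and `K` divides `G₀` or `G₁`; if `K = 0` there are infinitely many as soon as there
is one. -/
theorem result (A : Matrix (Fin 3) (Fin 3) ℤ) (h0 : ∀ j, 2 ≤ |A 0 j|) (h1 : ∀ j, 2 ≤ |A 1 j|)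
    (hdet : A.det = 1) :
    (∀ B : Matrix (Fin 3) (Fin 3) ℤ, B ∈ fibre A ↔
      ∃ s t : ℤ, D A + 2 * (s * G 0 A + t * G 1 A + s * t * K A) = 1 ∧ B = move A s t ∧
        ∀ j, 2 ≤ |A 2 j + s * A 0 j + t * A 1 j|) ∧
    (K A ≠ 0 → (∀ s t : ℤ, D A + 2 * (s * G 0 A + t * G 1 A + s * t * K A) = 1 ↔
        2 * ((K A * s + G 1 A) * (K A * t + G 0 A)) = E A) ∧
      ((fibre A).Infinite ↔ E A = 0 ∧ (K A ∣ G 0 A ∨ K A ∣ G 1 A))) ∧
    (K A = 0 → ((fibre A).Infinite ↔ (fibre A).Nonempty)) := by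
  have hA : Pre A := ⟨h0, h1, hdet⟩
  refine ⟨mem_fibre_iff A hA, ?_, infinite_iff_nonempty A hA⟩
  intro hK
  refine ⟨?_, infinite_iff A hA hK⟩
  intro s t
  exact ⟨fun e => two_mul_eq e, fun e => of_two_mul_eq hK e⟩

end Pool.Agent.Results.MP_197ffd_nt.RowFibres
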